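import Pool.Agent.Helper70K1.ST.Lang
import Pool.Agent.Helper49.HS.Gate

/-!
# Halfspaces over features computed in polynomial time, and counting
-/

set_option autoImplicit false

namespace Pool.Agent.Helper70K1.ST

open Pool.Agent.NPC Matrix
open Pool.Agent.Helper70K1.SP Pool.Agent.Helper70K1.SS
open Pool.Agent.NPC.Cnt (SharpP FP)
open Pool.Agent.H579R2.Spt (sgn tests mem_tests lab prm prm_spec)
open Pool.Agent.Helper49.KM (QK PNK sz_queryK two_pow_size_le)
open Pool.Agent.Helper49.HS (dQ eQ hQ lamQ PKK PML PDK PBK pr vfI cd cd_poly cd_spec PP_eval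
  cd_length sees_of trace_le CumH toV rv Sees level_mem Halfspace LT1 cumH_of_halfspace
  halfspace_of_LT1 halfspace_of_inP LT1_single)

theorem cd_mem {dp eN : Polynomial ℕ} {ψ : ℕ → List Bool → List ℤ} (h : CumH ψ dp LT)
    (hE : ∀ N x, x.length ≤ N → sz (ψ N x) ≤ eN.eval N) {I : Ins}
    (hidx : ∀ o ∈ I.os, o.2 < I.r.length)
    (hsz : ∀ (P j : ℕ) (t : ℕ × ℕ), P < 2 ^ I.m → j < 2 ^ I.m → t.1 < 2 ^ I.m → t.2 < 2 ^ I.m →
      sz ((I, (P, (j, t))) : QK) ≤ PNK.eval I.m)
    (hbig : (PBK dp eN).eval I.m < 2 ^ I.m) (hV : GoodS I (vI I (gI I))) :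
    cf I.m (vI I (gI I)) ∈ cd dp eN ψ I := by
  set M := bs (I.m * I.m) (vI I (gI I)) with hMd
  have hM : M.length = I.m * I.m := length_bs _ _
  have hMV : valB M = vI I (gI I) := valB_bs hV.1
  set m := I.m with hm
  set P := pr dp eN m with hP
  have hPdef : P = prm ((Helper49.HS.PP dp eN).eval m) := rfl
  have hPP := PP_eval dp eN m
  have hB : (PBK dp eN).eval m = (PDK dp eN).eval m + 4 * (Helper49.HS.PP dp eN).eval m +
      m * m := by
    simp [PBK]
  obtain ⟨hP1, hP2, hP3⟩ := prm_spec (m := (Helper49.HS.PP dp eN).eval m) (by omega)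
  rw [← hPdef] at hP1 hP2 hP3
  have hT1 : P < 2 ^ Nat.size P := Nat.lt_size_self P
  have hT2 := two_pow_size_le hP1.pos
  have hPlt : P < 2 ^ m := by omega
  have hTlt : 2 ^ Nat.size P < 2 ^ m := by omega
  have hmm : m * m < 2 ^ m := by omega
  have hlen : ∀ j ≤ M.length, ∀ t ∈ tests P (2 ^ Nat.size P),
      (bits ((I, (P, (j, t))) : QK)).length ≤ PNK.eval m := by
    intro j hj t ht
    rw [mem_tests, Finset.mem_product, Finset.mem_range, Finset.mem_range] at ht
    rw [bits_length]
    exact hsz P j t hPlt (by omega) (by omega) (by omega)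
  obtain ⟨z0, hz0⟩ := h.2.2 (PNK.eval m)
  have hdQ : (dQ dp).eval m = dp.eval (PNK.eval m) := by rw [dQ, Polynomial.eval_comp]
  have hz0' : ∃ z0 : Fin ((dQ dp).eval m) → ℝ, ∀ x : List Bool, x.length ≤ PNK.eval m →
      (x ∈ LT → 1 ≤ z0 ⬝ᵥ rv (toV _ (ψ (PNK.eval m) x))) ∧
      (x ∉ LT → z0 ⬝ᵥ rv (toV _ (ψ (PNK.eval m) x)) ≤ -1) := by
    rw [hdQ]
    exact ⟨z0, hz0⟩
  obtain ⟨z0, hz0⟩ := hz0'
  have hsees : Sees (vfI dp eN ψ I) ((dQ dp).eval m) P (2 ^ Nat.size P) M := by
    refine sees_of (dp := dp) (eN := eN) (I := I) hE rfl (z0 := z0) hlen ?_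
    intro j hj t ht
    obtain ⟨h5, h6⟩ := hz0 _ (hlen j hj t ht)
    cases hb : lab P t (M.take j) with
    | true =>
      have := h5 ((mem_LT hidx P j t).2 hb)
      simp only [sgn, if_true, Int.cast_one, one_mul]
      exact this
    | false =>
      have := h6 fun hin => by
        have hb' := (mem_LT hidx P j t).1 hin
        rw [← hm, ← hMd, hb] at hb'
        exact absurd hb' (by simp)
      simp only [sgn, Bool.false_eq_true, if_false, Int.cast_neg, Int.cast_one, neg_mul, one_mul]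
      linarith
  have hd1 : 1 ≤ (dQ dp).eval m := by
    rw [hdQ]
    exact h.2.1 _
  have hmem := level_mem (vf := vfI dp eN ψ I) (d := (dQ dp).eval m) (P := P)
    (k := Nat.size P) (lam := (lamQ dp eN).eval m) (w := M) hsees hP1 hT1.le hd1
    (κ := 8 * (dQ dp).eval m * (2 ^ Nat.size P * (m * m))) (by rw [hM])
    (fun j hj => trace_le (dp := dp) (eN := eN) (I := I) hE (hlen j hj) hPlt.le hTlt.le) (by
      rw [hM]
      omega)
  rw [← hMV]
  unfold cd
  rw [List.mem_filter, List.all_eq_true]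
  refine ⟨List.mem_map.2 ⟨M, ?_, rfl⟩, fun c hc => ?_⟩
  · rw [hM] at hmem
    exact hmem
  · rw [decide_eq_true_eq]
    rw [hMV] at hc
    exact hV.2.1 c hc

theorem cands_of_cumH {dp : Polynomial ℕ} {ψ : ℕ → List Bool → List ℤ} (h : CumH ψ dp LT) :
    ∃ (c : Ins → List (List ℕ)) (PK PB : Polynomial ℕ), Cands c PK PB := by
  -- the size of the features
  obtain ⟨q0, hq0⟩ := h.1.sz_le
  set eN : Polynomial ℕ := q0.comp (Polynomial.C 6 * Polynomial.X + Polynomial.C 3) with heN
  have hE : ∀ N x, x.length ≤ N → sz (ψ N x) ≤ eN.eval N := by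
    intro N x hx
    have h1 := hq0 (List.replicate N (), x)
    simp only [List.length_replicate, sz_pair, sz_replicate] at h1
    have h2 := sz_listBool_le x
    refine h1.trans ?_
    rw [heN, Polynomial.eval_comp]
    refine eval_mono q0 ?_
    simp only [Polynomial.eval_add, Polynomial.eval_mul, Polynomial.eval_C, Polynomial.eval_X]
    omega
  refine ⟨cd dp eN ψ, PKK dp eN, PBK dp eN, cd_poly dp eN h.1, cd_length dp eN ψ,
    cd_spec dp eN ψ, ?_⟩
  intro m p F os r i hpm hF hos hr hra hi hidx hdeg hbig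
  set I : Ins := (List.replicate m (), p, F, os, r, i) with hI
  have hIm : I.m = m := by
    change (List.replicate m ()).length = m
    simp
  have hV : GoodS I (vI I (gI I)) := good_vI (by rw [hIm]; exact hpm) hi (fun a ha => hra a ha)
    (by rw [hIm]; exact hdeg)
  have h1 := cd_mem (dp := dp) (eN := eN) h hE (I := I) hidx ?_ (by rw [hIm]; exact hbig) hV
  · rw [hIm] at h1
    exact h1
  · intro P j t h1 h2 h3 h4
    rw [hIm] at h1 h2 h3 h4 ⊢
    exact sz_queryK hpm hF hos hr hra (by omega) h1 h2 h3 h4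

/-- If a language that is hard for the languages decided with one value of a function in `#P` is a
halfspace, then every function in `#P` is computed in polynomial time. -/
theorem fp_of_hard {A : Set (List Bool)} (hA : SharpPHardLang A) (h : Halfspace A) :
    ∀ f : List Bool → ℕ, SharpP f → FP f := by
  obtain ⟨ψ, dp, h1⟩ := cumH_of_halfspace h
  obtain ⟨ψ', dp', h2⟩ := h1.of_reduces (hA LT inPSharpP_LT)
  obtain ⟨c, PK, PB, h3⟩ := cands_of_cumH h2
  exact fun f hf => fp_of_cands h3 hf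

/-- If all languages decided with one value of a function in `#P` are halfspaces, then every
function in `#P` is computed in polynomial time. -/
theorem fp_of_all (h : ∀ L : Set (List Bool), InPSharpP L → Halfspace L) :
    ∀ f : List Bool → ℕ, SharpP f → FP f := by
  obtain ⟨ψ, dp, h2⟩ := cumH_of_halfspace (h LT inPSharpP_LT)
  obtain ⟨c, PK, PB, h3⟩ := cands_of_cumH h2
  exact fun f hf => fp_of_cands h3 hf

/-- **Theorem.** Counting and weighted threshold gates. -/
theorem tfae_threshold : List.TFAE [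
    ∀ f : List Bool → ℕ, SharpP f → FP f,
    ∀ L : Set (List Bool), InPSharpP L → Halfspace L,
    ∃ A : Set (List Bool), SharpPHardLang A ∧ LT1 A] := by
  tfae_have 1 → 2 := fun h L hL => halfspace_of_inP (inP_of_fp h hL)
  tfae_have 2 → 1 := fun h => fp_of_all h
  tfae_have 3 → 1 := by
    rintro ⟨A, hA, h⟩
    exact fp_of_hard hA (halfspace_of_LT1 h)
  tfae_have 1 → 3 := by
    intro h
    refine ⟨{[true]}, fun L hL => ?_, LT1_single⟩
    obtain ⟨V, hV, hVL⟩ := inP_of_fp h hL
    exact ⟨V, hV, fun x => hVL x⟩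
  tfae_finish

end Pool.Agent.Helper70K1.ST
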