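import Pool.Agent.Helper70K1.ST.Run
import Pool.Agent.Helper49.KM.Lang

/-!
# The language of labels of the prefixes of the round polynomials of sums
-/

set_option autoImplicit false

namespace Pool.Agent.Helper70K1.ST

open Pool.Agent.NPC Pool.Agent.Helper70K1.SP Pool.Agent.Helper70K1.PP Pool.Agent.Helper70K1.SS
open Pool.Agent.H623R2.PS (poly_replicate)
open Pool.Agent.NPC.Cnt (SharpP FP CountP strFn strFn_bits bsum)
open Pool.Agent.H579R2.Spt (lab lab_poly)
open Pool.Agent.Helper49.KM (QK)

/-- The string of length `n` with the bits of `V`. -/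
def bs (n V : ℕ) : List Bool := (V.bits ++ List.replicate n false).take n

theorem valB_rep : ∀ k : ℕ, valB (List.replicate k false) = 0
  | 0 => rfl
  | k + 1 => by rw [List.replicate_succ, valB_cons, valB_rep k]; simp

theorem length_bs (n V : ℕ) : (bs n V).length = n := by
  rw [bs, List.length_take, List.length_append, List.length_replicate]
  omega

theorem valB_bs {n V : ℕ} (h : V < 2 ^ n) : valB (bs n V) = V := by
  have h1 : V.bits.length ≤ n := by
    rw [Nat.size_eq_bits_len]
    exact Nat.size_le.2 h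
  rw [bs, List.take_append, List.take_of_length_le h1, List.take_replicate, valB_append,
    valB_bits, valB_rep]
  simp

/-- The language of the labels. -/
def LT : Set (List Bool) :=
  {x | (unbits QK x).elim false (fun Q => lab Q.2.1 Q.2.2.2
    ((bs (Q.1.m * Q.1.m) (vI Q.1 (gL Q.1))).take Q.2.2.1)) = true}

theorem mem_LT {I : Ins} (h : ∀ o ∈ I.os, o.2 < I.r.length) (P j : ℕ) (t : ℕ × ℕ) :
    bits ((I, (P, (j, t))) : QK) ∈ LT ↔
      lab P t ((bs (I.m * I.m) (vI I (gI I))).take j) = true := by
  change (unbits QK (bits ((I, (P, (j, t))) : QK))).elim false (fun Q => lab Q.2.1 Q.2.2.2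
    ((bs (Q.1.m * Q.1.m) (vI Q.1 (gL Q.1))).take Q.2.2.1)) = true ↔ _
  rw [unbits_bits]
  simp only [Option.elim]
  rw [gL_eq h]

/-! ### Complexity -/

theorem countP_gK : CountP (fun Q : QK => gL Q.1) := by
  unfold gL
  refine CountP.bsum (f := fun x : QK × List Bool => lf x.1.1.p x.1.1.F
    (fun j => (asg x.1.1.os x.2 (x.1.1.r.set x.1.1.i (bI x.1.1))).getD j 0))
    (n := fun Q : QK => Q.1.os.length) (CountP.ofPoly ?_)
    (UPoly.length (poly_os (NPC.Poly.fst NPC.Poly.id)))
  have hI : NPC.Poly (fun x : QK × List Bool => x.1.1) := by fun_prop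
  have h1 : NPC.Poly (fun x : QK × List Bool => x.1.1.r.set x.1.1.i (bI x.1.1)) :=
    poly_set (poly_r hI) (poly_i hI) (poly_bI hI)
  have h2 : NPC.Poly (fun x : QK × List Bool =>
      asg x.1.1.os x.2 (x.1.1.r.set x.1.1.i (bI x.1.1))) :=
    poly_asg (poly_os hI) (by fun_prop) h1
  refine poly_lf (poly_p hI) (poly_F hI) ?_
  have h3 := h2.comp (f := fun x : (QK × List Bool) × ℕ => x.1) (NPC.Poly.fst NPC.Poly.id)
  fun_prop

theorem poly_bs {α : Type} [TEnc α] {n V : α → ℕ} (hn : UPoly n) (hV : NPC.Poly V) :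
    NPC.Poly (fun a => bs (n a) (V a)) := by
  unfold bs
  have h1 : NPC.Poly (fun a => (V a).bits) := Poly.natBits hV
  have h2 : NPC.Poly (fun a => List.replicate (n a) false) := poly_replicate hn false
  have h3 : NPC.Poly n := hn.toPoly
  fun_prop

/-- The language is decided with one value of a function in `#P`. -/
theorem inPSharpP_LT : InPSharpP LT := by
  refine ⟨strFn (fun Q : QK => gL Q.1), fun y =>
    [(unbits QK (unpair y).1).elim false (fun Q => lab Q.2.1 Q.2.2.2
      ((bs (Q.1.m * Q.1.m) (vI Q.1 (valB (unpair y).2))).take Q.2.2.1))],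
    @CountP.sharpP _ _ cntDec _ countP_gK, polyTime_of_poly ?_, fun x => ?_⟩
  · refine NPC.Poly.optElim (o := fun y : List Bool => unbits QK (unpair y).1)
      (g := fun _ => false) (h := fun y (Q : QK) => lab Q.2.1 Q.2.2.2
        ((bs (Q.1.m * Q.1.m) (vI Q.1 (valB (unpair y).2))).take Q.2.2.1))
      (poly_unbits.comp (NPC.Poly.fst poly_unpair)) (NPC.Poly.const _) ?_
    have h1 : NPC.Poly (fun x : List Bool × QK => valB (unpair x.1).2) :=
      NPC.Poly.valBits ((NPC.Poly.snd poly_unpair).comp (NPC.Poly.fst NPC.Poly.id))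
    have hI : NPC.Poly (fun x : List Bool × QK => x.2.1) := by fun_prop
    have h2 : NPC.Poly (fun x : List Bool × QK => vI x.2.1 (valB (unpair x.1).2)) :=
      poly_vI hI h1
    have hm := uPoly_m hI
    have h3 := poly_bs (UPoly.mul hm hm) h2
    exact lab_poly (P := fun x : List Bool × QK => x.2.2.1) (t := fun x => x.2.2.2.2)
      (u := fun x => (bs (x.2.1.m * x.2.1.m) (vI x.2.1 (valB (unpair x.1).2))).take x.2.2.2.1)
      (by fun_prop) (by fun_prop) (by fun_prop)
  · simp only [unpair_pairBits, List.cons.injEq, and_true]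
    change (unbits QK x).elim false (fun Q => lab Q.2.1 Q.2.2.2
      ((bs (Q.1.m * Q.1.m) (vI Q.1 (gL Q.1))).take Q.2.2.1)) = true ↔ _
    cases hx : unbits QK x with
    | none => simp
    | some Q =>
      simp only [Option.elim]
      have h1 : bits Q = x := bits_of_unbits hx
      rw [← h1, strFn_bits]
      have h2 : valB (gL Q.1).bits = gL Q.1 := valB_bits _
      rw [h2]

end Pool.Agent.Helper70K1.ST
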