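import Pool.Agent.Helper70K1.SS.Fin

/-!
# Counting with lists of candidates for the round polynomials
-/

set_option autoImplicit false

namespace Pool.Agent.Helper70K1.ST

open Pool.Agent.NPC Pool.Agent.Helper70K1.SP Pool.Agent.Helper70K1.PP Pool.Agent.Helper70K1.SS
open Pool.Agent.H623R2.PS (poly_replicate)
open Pool.Agent.NPC.Cnt (SharpP FP CNF satCount vars SatBy parsimonious)

/-- The lists `cd I` have at most `PK` elements, and they contain the round polynomials of the sums
for the instances with parameter `m` with `PB.eval m < 2 ^ m`. -/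
def Cands (cd : Ins → List (List ℕ)) (PK PB : Polynomial ℕ) : Prop :=
  NPC.Poly cd ∧ (∀ I : Ins, (cd I).length ≤ PK.eval I.m) ∧
  (∀ I : Ins, ∀ c ∈ cd I, c.length = I.m ∧ ∀ a ∈ c, a ≤ I.p) ∧
  ∀ (m p : ℕ) (F : List (List (Bool × ℕ))) (os : List Op) (r : List ℕ) (i : ℕ),
    p < 2 ^ m → sz F ≤ m → sz os ≤ m → r.length ≤ m → (∀ a ∈ r, a ≤ p) → i < r.length →
    (∀ o ∈ os, o.2 < r.length) → (F.map List.length).sum < m → PB.eval m < 2 ^ m →
    cf m (vI (List.replicate m (), p, F, os, r, i) (gI (List.replicate m (), p, F, os, r, i))) ∈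
      cd (List.replicate m (), p, F, os, r, i)

/-- The recursive evaluation is correct. -/
theorem run_correct {cd : Ins → List (List ℕ)} {PK PB : Polynomial ℕ} (h : Cands cd PK PB)
    {m p n D : ℕ} {F : List (List (Bool × ℕ))} {os0 : List Op} [hprime : Fact (p + 1).Prime]
    (hM : PK.eval m * PK.eval m * m + m + 2 ≤ p + 1) (hD : p < D) (hpm : p < 2 ^ m)
    (hB : PB.eval m < 2 ^ m) (hF : sz F ≤ m) (hos0 : sz os0 ≤ m) (hn : n < m)
    (hidx : ∀ o ∈ os0, o.2 < n) (hdeg : (F.map List.length).sum < m) :
    ((runG p D (fun r => leafN p F r) (fun _ _ u w => (u + w) % (p + 1))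
      (fun os r i => cd (List.replicate m (), p, F, os, r, i)) os0 (List.replicate n 0) : ℕ) :
        ZMod (p + 1)) = vS (leafC F) os0 (fun _ => 0) := by
  have hrc := runG_correct (p := p) (D := D) (m := m) (n := n)
    (K := PK.eval m) (lv := fun r => leafN p F r)
    (cm := fun _ _ u w => (u + w) % (p + 1))
    (cd := fun os r i => cd (List.replicate m (), p, F, os, r, i))
    (vf := vS (leafC F)) (os0 := os0) (by omega) (by omega)
    (by omega) hidx (fun r _ _ => cast_leafN p F r) ?_ ?_
    os0 (List.replicate n 0) List.suffix_rfl (by simp) (by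
      intro a ha
      rw [List.eq_of_mem_replicate ha]
      exact Nat.zero_le _)
  · rw [hrc]
    congr 1
    funext i
    unfold pt
    by_cases hi : i < n
    · rw [List.getD_eq_getElem _ _ (by simpa using hi)]
      simp
    · rw [List.getD_eq_getElem?_getD, List.getElem?_eq_none (by simpa using hi)]
      simp
  · -- the combinations
    rintro ⟨o, i⟩ os r u w hrl hra hi hu hw
    rw [cast_mod, Nat.cast_add, hu, hw]
    rfl
  · -- the candidates
    intro os r i hos hne hrl hra hi
    set I : Ins := (List.replicate m (), p, F, os, r, i) with hI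
    have hIm : I.m = m := by
      change (List.replicate m ()).length = m
      simp
    have hIp : I.p = p := rfl
    have hidx' : ∀ o ∈ I.os, o.2 < I.r.length := fun o ho => by
      change o.2 < r.length
      rw [hrl]
      exact hidx o (hos.subset ho)
    have hprime' : Fact (I.p + 1).Prime := hprime
    have hV : GoodS I (vI I (gI I)) := good_vI (by rw [hIm]; exact hpm) (by
      change i < r.length
      omega) (fun a ha => hra a ha) (by rw [hIm]; exact hdeg)
    refine ⟨?_, ?_, cf I.m (vI I (gI I)), ?_, hV.2.2⟩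
    · have h1 := h.2.1 I
      rw [hIm] at h1
      exact h1
    · intro cs hcs
      have h1 := h.2.2.1 I cs hcs
      rw [hIm, hIp] at h1
      exact h1
    · rw [hIm]
      exact h.2.2.2 m p F os r i hpm hF ((sz_suffix hos).trans hos0) (by omega) hra (by omega)
        (fun o ho => by rw [hrl]; exact hidx o (hos.subset ho)) hdeg hB

/-- The lower bound for the primes. -/
noncomputable def PM (PK : Polynomial ℕ) : Polynomial ℕ :=
  PK * PK * Polynomial.X + Polynomial.X + Polynomial.C 2

/-- The bound for the primes. -/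
noncomputable def PD (PK : Polynomial ℕ) : Polynomial ℕ :=
  Polynomial.C 2 * (PM PK + Polynomial.X + Polynomial.C 3 + Polynomial.C 4) ^ 2 + Polynomial.C 1

/-- The number of satisfying assignments is computed in polynomial time. -/
theorem satCount_of_cands {cd : Ins → List (List ℕ)} {PK PB : Polynomial ℕ} (h : Cands cd PK PB)
    {g : List Bool → CNF ℕ} (hg : NPC.Poly g) : NPC.Poly (fun x => satCount (g x)) := by
  classical
  have hrf : NPC.Poly (fun x => rf (g x)) := poly_rf hg
  have hro : NPC.Poly (fun x => ro (g x)) := poly_ro hg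
  have hvl : NPC.Poly (fun x => vl (g x)) := poly_vl hg
  -- the size parameter
  have hbig : NPC.Poly (fun x : List Bool => (rf (g x), (ro (g x), vl (g x)))) := by
    fun_prop
  obtain ⟨r1, hr1⟩ := hbig.sz_le
  obtain ⟨c0, hc0⟩ := poly_lt_two_pow (PD PK + PB)
  set mm : List Bool → ℕ := fun x => r1.eval (4 * x.length + 1) + 10 + c0 with hmm
  have hmmU : UPoly mm := by
    refine UPoly.add (UPoly.add ?_ (UPoly.const 10)) (UPoly.const c0)
    exact (UPoly.add (UPoly.mul (UPoly.const 4) (UPoly.length NPC.Poly.id))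
      (UPoly.const 1)).eval r1
  set WW : List Bool → List Unit := fun x => List.replicate (mm x) () with hWW
  have hWWP : NPC.Poly WW := hmmU
  set rr : List Bool → List ℕ := fun x => List.replicate (vl (g x)).length 0 with hrr
  have hrrP : NPC.Poly rr := poly_replicate (UPoly.length hvl) 0
  set RR : List Bool × ℕ → ℕ := fun z => runG z.2 ((PD PK).eval (mm z.1))
    (fun r => leafN z.2 (rf (g z.1)) r) (fun _ _ u w => (u + w) % (z.2 + 1))
    (fun os r i => cd (WW z.1, z.2, rf (g z.1), os, r, i)) (ro (g z.1)) (rr z.1) with hRR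
  have hRRP : NPC.Poly RR := by
    have f1 : NPC.Poly (fun x : (List Bool × ℕ) × List Op × List ℕ × ℕ => x.1.1) := by fun_prop
    have hI : NPC.Poly (fun x : (List Bool × ℕ) × List Op × List ℕ × ℕ =>
        ((WW x.1.1, x.1.2, rf (g x.1.1), x.2.1, x.2.2.1, x.2.2.2) : Ins)) := by
      have h1 := hWWP.comp f1
      have h2 := hrf.comp f1
      fun_prop
    have hcdP : NPC.Poly (fun x : (List Bool × ℕ) × List Op × List ℕ × ℕ =>
        cd (WW x.1.1, x.1.2, rf (g x.1.1), x.2.1, x.2.2.1, x.2.2.2)) := h.1.comp hI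
    have h2 : NPC.Poly (fun z : List Bool × ℕ => z.2) := by fun_prop
    exact poly_runG (p := fun z : List Bool × ℕ => z.2) (D := fun z => (PD PK).eval (mm z.1))
      (lv := fun z r => leafN z.2 (rf (g z.1)) r) (cm := fun z _ _ u w => (u + w) % (z.2 + 1))
      (cd := fun z os r i => cd (WW z.1, z.2, rf (g z.1), os, r, i)) h2
      ((hmmU.comp (NPC.Poly.fst NPC.Poly.id)).eval (PD PK)) hcdP (by
        have h3 := hrf.comp (f := fun x : (List Bool × ℕ) × List ℕ => x.1.1)
          (NPC.Poly.fst (NPC.Poly.fst NPC.Poly.id))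
        exact poly_leafN (p := fun x : (List Bool × ℕ) × List ℕ => x.1.2)
          (F := fun x => rf (g x.1.1)) (r := fun x => x.2) (by fun_prop) h3 (by fun_prop))
      (fun z r => leafN_le _ _ _) (by fun_prop)
      (fun z o y u w => ((Nat.mod_lt _ (Nat.succ_pos _)).le))
      (os := fun z => ro (g z.1)) (r := fun z => rr z.1)
      (hro.comp (NPC.Poly.fst NPC.Poly.id)) (hrrP.comp (NPC.Poly.fst NPC.Poly.id))
  -- the reconstruction
  have hDU : UPoly (fun x => (PD PK).eval (mm x)) := hmmU.eval (PD PK)
  have hMU' : UPoly (fun x => (PM PK).eval (mm x)) := hmmU.eval (PM PK)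
  have hprs : NPC.Poly (fun x => SS.prs ((PM PK).eval (mm x)) ((PD PK).eval (mm x))) := by
    unfold SS.prs
    refine NPC.Poly.filter (p := fun x q => decide ((PM PK).eval (mm x) < q) &&
      primeN ((PD PK).eval (mm x)) q) hDU.range ?_
    have h1 : NPC.Poly (fun x : List Bool × ℕ => primeN ((PD PK).eval (mm x.1)) x.2) :=
      poly_primeN (hDU.comp (NPC.Poly.fst NPC.Poly.id)) (NPC.Poly.snd NPC.Poly.id)
    have h2 : NPC.Poly (fun x : List Bool × ℕ => (PM PK).eval (mm x.1)) :=
      hMU'.toPoly.comp (NPC.Poly.fst NPC.Poly.id)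
    fun_prop
  have hfin : NPC.Poly (fun x => crt ((PD PK).eval (mm x)) (2 ^ (vl (g x)).length + 1)
      ((SS.prs ((PM PK).eval (mm x)) ((PD PK).eval (mm x))).map fun q => (q, RR (x, q - 1) % q))) := by
    refine poly_crt hDU ?_ (NPC.Poly.map (F := fun x q => (q, RR (x, q - 1) % q)) hprs ?_) ?_
    · have h1 := poly_pow2 (UPoly.length hvl)
      fun_prop
    · have h1 : NPC.Poly (fun x : List Bool × ℕ => RR (x.1, x.2 - 1)) :=
        hRRP.comp (f := fun x : List Bool × ℕ => (x.1, x.2 - 1)) (by fun_prop)
      fun_prop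
    · intro x e he
      obtain ⟨q, hq, rfl⟩ := List.mem_map.1 he
      obtain ⟨h1, h2, h3⟩ := mem_prs.1 hq
      exact ⟨h3.pos, h1.le⟩
  refine hfin.congr fun x => ?_
  -- correctness
  set m := mm x with hm
  have hsz : sz (rf (g x)) + sz (ro (g x)) + sz (vl (g x)) + 10 + c0 ≤ m := by
    have h1 := hr1 x
    have h2 := sz_listBool_le x
    have h3 := eval_mono r1 h2
    simp only [sz_pair] at h1
    rw [hm, hmm]
    simp only
    omega
  have hn : (vl (g x)).length < sz (vl (g x)) := length_lt_sz _
  have hpow := hc0 m (by omega)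
  rw [Polynomial.eval_add] at hpow
  have hPM : (PM PK).eval m = PK.eval m * PK.eval m * m + m + 2 := by
    simp [PM]
  have hPD : (PD PK).eval m = 2 * ((PM PK).eval m + m + 3 + 4) ^ 2 + 1 := by
    simp [PD]
  have hdegleaf : ((rf (g x)).map List.length).sum < m := by
    have key : ∀ F : List (List (Bool × ℕ)), (F.map List.length).sum + 1 ≤ sz F := by
      intro F
      induction F with
      | nil => simp
      | cons c F ih =>
        have := length_lt_sz c
        simp only [List.map_cons, List.sum_cons, sz_list_cons]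
        omega
    have := key (rf (g x))
    omega
  refine crt_eq (fun e he => ?_) ?_ (Nat.lt_succ_of_le (satCount_le _)) ?_
  · obtain ⟨q, hq, rfl⟩ := List.mem_map.1 he
    obtain ⟨h1, h2, h3⟩ := mem_prs.1 hq
    refine ⟨h3, h1.le, ?_⟩
    obtain ⟨p, rfl⟩ : ∃ p, q = p + 1 := ⟨q - 1, by have := h3.pos; omega⟩
    have : Fact (p + 1).Prime := ⟨h3⟩
    have hrc := run_correct h (m := m) (p := p)
      (n := (vl (g x)).length) (D := (PD PK).eval m) (F := rf (g x)) (os0 := ro (g x))
      (by omega) (by omega) (by omega) (by omega) (by omega) (by omega) (by omega) (ro_idx _)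
      hdegleaf
    rw [vS_rf] at hrc
    have h4 := (ZMod.natCast_eq_natCast_iff' _ _ _).1 hrc
    simp only [Nat.add_sub_cancel]
    exact h4.symm
  · rw [List.map_map]
    have e : (Prod.fst ∘ fun q => (q, RR (x, q - 1) % q)) = id := by
      funext q
      rfl
    rw [e, List.map_id]
    exact nodup_prs _ _
  · rw [List.length_map, hPD]
    have h1 := length_prs (M := (PM PK).eval m) (m := m)
    calc 2 ^ (vl (g x)).length + 1 ≤ 2 ^ ((vl (g x)).length + 1) := by
          rw [pow_succ]
          have := Nat.one_le_two_pow (n := (vl (g x)).length)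
          omega
      _ ≤ _ := Nat.pow_le_pow_right (by norm_num) (by omega)

/-- Every function in `#P` is computed in polynomial time. -/
theorem fp_of_cands {cd : Ins → List (List ℕ)} {PK PB : Polynomial ℕ} (h : Cands cd PK PB)
    {f : List Bool → ℕ} (hf : SharpP f) : FP f := by
  obtain ⟨V, p, hV, hf⟩ := hf
  obtain ⟨G, hG, hGf⟩ := parsimonious hV p
  have h1 : NPC.Poly G := PC.comp hG Cnt.pc_raw
  have h2 := satCount_of_cands h h1
  exact fp_of_poly (h2.congr fun x => by rw [hf x, ← hGf x])

end Pool.Agent.Helper70K1.ST
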